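import Mathlib

set_option autoImplicit false

/-!
Nondegenerate closed curves in `ℝⁿ`, small perturbations of multiply traversed circles, Frenet
frames and their length.
-/

open Real

namespace Pool.Agent.NondegCurves

/-- Euclidean space `ℝⁿ`. -/
abbrev Eucl (n : ℕ) : Type := EuclideanSpace ℝ (Fin n)

/-- `γ` is a smooth closed (`2π`-periodic) curve in `ℝⁿ` whose derivatives
`γ'(t), γ''(t), …, γ⁽ⁿ⁾(t)` are linearly independent for every `t`, that is,
`γ' ∧ γ'' ∧ ⋯ ∧ γ⁽ⁿ⁾` vanishes nowhere. -/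
def IsNondegenerateClosed (n : ℕ) (γ : ℝ → Eucl n) : Prop :=
  ContDiff ℝ (⊤ : ℕ∞) γ ∧ (∀ t : ℝ, γ (t + 2 * π) = γ t) ∧
    ∀ t : ℝ, LinearIndependent ℝ (fun k : Fin n => iteratedDeriv ((k : ℕ) + 1) γ t)

/-- The plane unit circle traversed `m` times, viewed in `ℝⁿ`:
`c_m(t) = (cos mt, sin mt, 0, …, 0)`. -/
noncomputable def circleCurve (n m : ℕ) (t : ℝ) : Eucl n :=
  WithLp.toLp 2 fun i : Fin n =>
    if (i : ℕ) = 0 then Real.cos (m * t) else if (i : ℕ) = 1 then Real.sin (m * t) else 0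

/-- Every `C^∞`-neighbourhood of `c_m` contains a nondegenerate closed curve in `ℝⁿ`: for each
order `r` and each `ε > 0` there is a nondegenerate closed curve whose derivatives of order at
most `r` are uniformly `ε`-close to those of `c_m`. -/
def CirclePerturbsToNondegenerate (n m : ℕ) : Prop :=
  ∀ (r : ℕ) (ε : ℝ), 0 < ε → ∃ γ : ℝ → Eucl n, IsNondegenerateClosed n γ ∧
    ∀ k ≤ r, ∀ t : ℝ, ‖iteratedDeriv k γ t - iteratedDeriv k (circleCurve n m) t‖ < ε

/-- The set of `m ≥ 1` for which every `C^∞`-neighbourhood of `c_m` contains a nondegenerate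
closed curve in `ℝⁿ`; its least element is `μ(n)`. -/
def perturbableMultiplicities (n : ℕ) : Set ℕ :=
  {m | 1 ≤ m ∧ CirclePerturbsToNondegenerate n m}

/-- `μ(n)`, the least `m ≥ 1` such that every `C^∞`-neighbourhood of `c_m` contains a
nondegenerate closed curve in `ℝⁿ`. -/
noncomputable def mu (n : ℕ) : ℕ := sInf (perturbableMultiplicities n)

/-- The vector `e_{i+1}(t)` (`i = 0, …, n-1`) of the Frenet frame of `γ`, obtained by
Gram-Schmidt orthonormalisation of `γ'(t), …, γ⁽ⁿ⁾(t)`. It is `0` for `i ≥ n`. -/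
noncomputable def frenetFrame (n : ℕ) (γ : ℝ → Eucl n) (i : ℕ) (t : ℝ) : Eucl n :=
  if h : i < n then
    InnerProductSpace.gramSchmidtNormed ℝ
      (fun k : Fin n => iteratedDeriv ((k : ℕ) + 1) γ t) ⟨i, h⟩
  else 0

/-- The curvature `κ_{i+1}(t) = ⟨e_{i+1}', e_{i+2}⟩` (`i = 0, …, n-2`), where the prime is the
derivative with respect to arc length, `d/ds = ‖γ'(t)‖⁻¹ d/dt`. -/
noncomputable def frenetCurvature (n : ℕ) (γ : ℝ → Eucl n) (i : ℕ) (t : ℝ) : ℝ :=
  inner ℝ (deriv (frenetFrame n γ i) t) (frenetFrame n γ (i + 1) t) / ‖deriv γ t‖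

/-- The length of the Frenet frame over one period,
`L(E) = ∫ (κ_1² + ⋯ + κ_{n-1}²)^{1/2} ds`. -/
noncomputable def frenetFrameLength (n : ℕ) (γ : ℝ → Eucl n) : ℝ :=
  ∫ t in (0 : ℝ)..(2 * π),
    Real.sqrt (∑ i ∈ Finset.range (n - 1), frenetCurvature n γ i t ^ 2) * ‖deriv γ t‖

end Pool.Agent.NondegCurves
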