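import Pool.Agent.NondegCurves.Defs

set_option autoImplicit false

open Real Set MeasureTheory intervalIntegral Filter Topology

namespace Pool.Agent.NondegCurves

/-! ### Fenchel's theorem -/

section fenchel

variable {E : Type*} [NormedAddCommGroup E] [InnerProductSpace ℝ E]

theorem inner_deriv_bound {A x v : E} (hA : ‖A‖ = 1) (hx : ‖x‖ = 1) (hxv : inner ℝ x v = 0) :
    |inner ℝ A v| ≤ ‖v‖ * Real.sqrt (1 - (inner ℝ A x) ^ 2) := by
  have h1 : inner ℝ A v = inner ℝ (A - (inner ℝ A x) • x) v := by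
    rw [inner_sub_left, inner_smul_left, hxv]; simp
  have h2 : ‖A - (inner ℝ A x) • x‖ ^ 2 = 1 - (inner ℝ A x) ^ 2 := by
    rw [norm_sub_sq_real, inner_smul_right, norm_smul, hA, hx, Real.norm_eq_abs, mul_one, sq_abs]
    ring
  rw [h1]
  refine (abs_real_inner_le_norm _ _).trans ?_
  rw [mul_comm]
  apply mul_le_mul_of_nonneg_left _ (norm_nonneg _)
  rw [← h2, Real.sqrt_sq (norm_nonneg _)]

theorem inner_deriv_zero {T T' : ℝ → E} (hT : ∀ t, HasDerivAt T (T' t) t)
    (hn : ∀ t, ‖T t‖ = 1) (t : ℝ) : inner ℝ (T t) (T' t) = 0 := by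
  have h1 : HasDerivAt (fun t => inner ℝ (T t) (T t)) (inner ℝ (T t) (T' t) + inner ℝ (T' t) (T t)) t :=
    (hT t).inner ℝ (hT t)
  have h2 : (fun t => inner ℝ (T t) (T t)) = fun _ : ℝ => (1 : ℝ) := by
    funext t
    rw [real_inner_self_eq_norm_sq, hn t]; norm_num
  rw [h2] at h1
  have h3 := h1.unique (hasDerivAt_const t (1 : ℝ))
  rw [real_inner_comm (T t) (T' t)] at h3
  linarith

/-- A `C¹` curve on the unit sphere: the spherical distance is at most the length. -/
theorem cos_le_inner {T T' : ℝ → E} (hT : ∀ t, HasDerivAt T (T' t) t) (hc : Continuous T')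
    (hn : ∀ t, ‖T t‖ = 1) {a b : ℝ} (hab : a ≤ b) (hlt : ∫ t in a..b, ‖T' t‖ < π) :
    Real.cos (∫ t in a..b, ‖T' t‖) ≤ inner ℝ (T a) (T b) := by
  set σ : ℝ → ℝ := fun x => ∫ t in a..x, ‖T' t‖ with hσ
  have hσd : ∀ x, HasDerivAt σ ‖T' x‖ x := fun x =>
    (hc.norm.integral_hasStrictDerivAt a x).hasDerivAt
  have hσa : σ a = 0 := by simp [hσ]
  have hσmono : ∀ x ∈ Icc a b, 0 ≤ σ x ∧ σ x ≤ σ b := by
    intro x hx
    constructor
    · exact intervalIntegral.integral_nonneg hx.1 (fun _ _ => norm_nonneg _)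
    · have h1 : σ b = σ x + ∫ t in x..b, ‖T' t‖ := by
        rw [hσ]
        exact (integral_add_adjacent_intervals (hc.norm.intervalIntegrable _ _)
          (hc.norm.intervalIntegrable _ _)).symm
      have h2 : 0 ≤ ∫ t in x..b, ‖T' t‖ :=
        intervalIntegral.integral_nonneg hx.2 (fun _ _ => norm_nonneg _)
      linarith
  have key : ∀ ε : ℝ, 0 < ε → ε + σ b + ε * (b - a) < π →
      Real.cos (ε + σ b + ε * (b - a)) ≤ inner ℝ (T a) (T b) := by
    intro ε hε hεlt
    set S : ℝ → ℝ := fun x => ε + σ x + ε * (x - a) with hS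
    have hSd : ∀ x, HasDerivAt S (‖T' x‖ + ε) x := by
      intro x
      have h1 : HasDerivAt (fun x : ℝ => ε * (x - a)) ε x := by
        simpa using ((hasDerivAt_id x).sub_const a).const_mul ε
      have h2 := ((hσd x).const_add ε).add h1
      exact h2
    have hSx : ∀ x ∈ Icc a b, 0 < S x ∧ S x < π := by
      intro x hx
      have h1 := hσmono x hx
      have h2 : 0 ≤ ε * (x - a) := mul_nonneg hε.le (by linarith [hx.1])
      have h3 : ε * (x - a) ≤ ε * (b - a) := mul_le_mul_of_nonneg_left (by linarith [hx.2]) hε.le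
      simp only [hS]
      constructor <;> linarith [h1.1, h1.2]
    have hfc : ∀ x, HasDerivAt (fun x => Real.cos (S x)) (-Real.sin (S x) * (‖T' x‖ + ε)) x :=
      fun x => (hSd x).cos
    have hB : ∀ x, HasDerivAt (fun x => inner ℝ (T a) (T x)) (inner ℝ (T a) (T' x)) x := by
      intro x
      have := (hasDerivAt_const x (T a)).inner ℝ (hT x)
      simpa using this
    have := image_le_of_deriv_right_lt_deriv_boundary (a := a) (b := b)
      (f := fun x => Real.cos (S x)) (f' := fun x => -Real.sin (S x) * (‖T' x‖ + ε))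
      (B := fun x => inner ℝ (T a) (T x)) (B' := fun x => inner ℝ (T a) (T' x))
      (fun x _ => (hfc x).continuousAt.continuousWithinAt)
      (fun x _ => (hfc x).hasDerivWithinAt)
      (by
        simp only [real_inner_self_eq_norm_sq, hn a]
        rw [one_pow]
        exact Real.cos_le_one _)
      hB
      (by
        intro x hx heq
        have h1 := hSx x ⟨hx.1, hx.2.le⟩
        have hsin : 0 < Real.sin (S x) := Real.sin_pos_of_pos_of_lt_pi h1.1 h1.2
        have h2 := inner_deriv_bound (hn a) (hn x) (inner_deriv_zero hT hn x)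
        have h3 : Real.sqrt (1 - (inner ℝ (T a) (T x)) ^ 2) = Real.sin (S x) := by
          rw [← heq]
          have : 1 - Real.cos (S x) ^ 2 = Real.sin (S x) ^ 2 := by
            have := Real.sin_sq_add_cos_sq (S x); linarith
          rw [this, Real.sqrt_sq hsin.le]
        rw [h3] at h2
        have h4 := neg_abs_le (inner ℝ (T a) (T' x))
        nlinarith)
    have h5 := this (right_mem_Icc.2 hab)
    simpa [hS] using h5
  -- let `ε → 0`
  have hcont : Tendsto (fun ε : ℝ => Real.cos (ε + σ b + ε * (b - a))) (𝓝[>] 0)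
      (𝓝 (Real.cos (σ b))) := by
    have h1 : Continuous (fun ε : ℝ => Real.cos (ε + σ b + ε * (b - a))) := by fun_prop
    have h2 := h1.tendsto 0
    simp only [zero_add, zero_mul, add_zero] at h2
    exact h2.mono_left nhdsWithin_le_nhds
  have hev : ∀ᶠ ε : ℝ in 𝓝[>] 0, ε + σ b + ε * (b - a) < π := by
    have h1 : Continuous (fun ε : ℝ => ε + σ b + ε * (b - a)) := by fun_prop
    have h2 := h1.tendsto 0
    simp only [zero_add, zero_mul, add_zero] at h2
    exact (h2.mono_left nhdsWithin_le_nhds).eventually_lt_const hlt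
  apply le_of_tendsto hcont
  filter_upwards [hev, self_mem_nhdsWithin] with ε h1 h2
  exact key ε h2 h1

theorem cos_add_cos_pos {x y : ℝ} (hx : 0 ≤ x) (hy : 0 ≤ y) (hxy : x + y < π) :
    0 < Real.cos x + Real.cos y := by
  have h1 : Real.cos (π - y) < Real.cos x := by
    apply Real.cos_lt_cos_of_nonneg_of_le_pi hx (by linarith) (by linarith)
  rw [Real.cos_pi_sub] at h1
  linarith

/-- **Fenchel's theorem**, for a closed `C¹` curve `T` on the unit sphere having the origin as a
positively weighted mean. -/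
theorem fenchel [CompleteSpace E] {T T' : ℝ → E} (hT : ∀ t, HasDerivAt T (T' t) t)
    (hc : Continuous T') (hn : ∀ t, ‖T t‖ = 1) {P : ℝ} (hP : 0 < P) (hper : T P = T 0)
    {v : ℝ → ℝ} (hv : Continuous v) (hvpos : ∀ t, 0 < v t)
    (hint : ∫ t in (0 : ℝ)..P, v t • T t = 0) : 2 * π ≤ ∫ t in (0 : ℝ)..P, ‖T' t‖ := by
  by_contra hlt
  push Not at hlt
  have hTc : Continuous T := continuous_iff_continuousAt.2 fun t => (hT t).continuousAt
  set σ : ℝ → ℝ := fun x => ∫ t in (0 : ℝ)..x, ‖T' t‖ with hσ
  have hadd : ∀ x y, σ y = σ x + ∫ t in x..y, ‖T' t‖ := fun x y =>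
    (integral_add_adjacent_intervals (hc.norm.intervalIntegrable _ _)
          (hc.norm.intervalIntegrable _ _)).symm
  have hσd : ∀ x, HasDerivAt σ ‖T' x‖ x := fun x =>
    (hc.norm.integral_hasStrictDerivAt 0 x).hasDerivAt
  have hσc : Continuous σ := continuous_iff_continuousAt.2 fun t => (hσd t).continuousAt
  have hσ0 : σ 0 = 0 := by simp [hσ]
  have hσP : 0 ≤ σ P := intervalIntegral.integral_nonneg hP.le (fun _ _ => norm_nonneg _)
  obtain ⟨s, hs, hsσ⟩ : ∃ s ∈ Icc 0 P, σ s = σ P / 2 := by
    have h1 := intermediate_value_Icc hP.le hσc.continuousOn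
    have h2 : σ P / 2 ∈ Icc (σ 0) (σ P) := by
      rw [hσ0]; constructor <;> linarith
    obtain ⟨s, hs, h⟩ := h1 h2
    exact ⟨s, hs, h⟩
  have hlt' : σ P < 2 * π := hlt
  -- positivity of the inner product with `T 0 + T s`
  have nonneg : ∀ x y : ℝ, x ≤ y → 0 ≤ ∫ t in x..y, ‖T' t‖ := fun x y h =>
    intervalIntegral.integral_nonneg h (fun _ _ => norm_nonneg _)
  have hpos : ∀ t ∈ Icc 0 P, 0 < inner ℝ (T 0 + T s) (T t) := by
    intro t ht
    rw [inner_add_left]
    rcases le_total t s with hts | hst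
    · have n1 := nonneg 0 t ht.1
      have n2 := nonneg t s hts
      have a1 := hadd 0 t
      have a2 := hadd t s
      have h1 := cos_le_inner hT hc hn ht.1 (by linarith)
      have h2 := cos_le_inner hT hc hn hts (by linarith)
      rw [real_inner_comm] at h2
      have h3 := cos_add_cos_pos n1 n2 (by linarith)
      linarith
    · have n1 := nonneg s t hst
      have n2 := nonneg t P ht.2
      have a1 := hadd s t
      have a2 := hadd t P
      have h1 := cos_le_inner hT hc hn hst (by linarith)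
      have h2 := cos_le_inner hT hc hn ht.2 (by linarith)
      rw [hper, real_inner_comm] at h2
      have h3 := cos_add_cos_pos n1 n2 (by linarith)
      linarith
  have h4 : ∫ t in (0 : ℝ)..P, inner ℝ (T 0 + T s) (v t • T t) = 0 := by
    have := (innerSL ℝ (T 0 + T s)).intervalIntegral_comp_comm (μ := volume) (a := 0) (b := P)
      (f := fun t => v t • T t) ((hv.smul hTc).intervalIntegrable _ _)
    simp only [innerSL_apply_apply] at this
    rw [this, hint]
    simp
  have h5 : 0 < ∫ t in (0 : ℝ)..P, inner ℝ (T 0 + T s) (v t • T t) := by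
    apply intervalIntegral_pos_of_pos_on
    · apply Continuous.intervalIntegrable
      exact continuous_const.inner (hv.smul hTc)
    · intro t ht
      rw [inner_smul_right]
      exact mul_pos (hvpos t) (hpos t ⟨ht.1.le, ht.2.le⟩)
    · exact hP
  linarith

end fenchel

end Pool.Agent.NondegCurves
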