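import Pool.Agent.NondegCurves.Defs

set_option autoImplicit false

open Real Finset

namespace Pool.Agent.NondegCurves

/-! ### Families of successive derivatives -/

section family

variable {E : Type*} [NormedAddCommGroup E] [NormedSpace ℝ E]

/-- `Γ` is a family of successive derivatives. -/
def DerivFamily (Γ : ℕ → ℝ → E) : Prop := ∀ k t, HasDerivAt (Γ k) (Γ (k + 1) t) t

theorem DerivFamily.iteratedDeriv {Γ : ℕ → ℝ → E} (h : DerivFamily Γ) (k : ℕ) :
    iteratedDeriv k (Γ 0) = Γ k := by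
  induction k with
  | zero => simp
  | succ k ih => rw [iteratedDeriv_succ, ih]; funext t; exact (h k t).deriv

theorem DerivFamily.contDiff {Γ : ℕ → ℝ → E} (h : DerivFamily Γ) :
    ContDiff ℝ (⊤ : ℕ∞) (Γ 0) := by
  apply contDiff_of_differentiable_iteratedDeriv
  intro m _
  rw [h.iteratedDeriv m]
  exact fun t => (h m t).differentiableAt

theorem DerivFamily.add {Γ Δ : ℕ → ℝ → E} (h : DerivFamily Γ) (h' : DerivFamily Δ) :
    DerivFamily (fun k t => Γ k t + Δ k t) := fun k t => (h k t).add (h' k t)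

theorem DerivFamily.smul {Γ : ℕ → ℝ → E} (h : DerivFamily Γ) (c : ℝ) :
    DerivFamily (fun k t => c • Γ k t) := fun k t => (h k t).const_smul c

theorem DerivFamily.sum {l : ℕ} {Γ : ℕ → ℕ → ℝ → E} (h : ∀ j < l, DerivFamily (Γ j)) :
    DerivFamily (fun k t => ∑ j ∈ range l, Γ j k t) := by
  intro k t
  apply HasDerivAt.fun_sum
  intro j hj
  exact h j (mem_range.1 hj) k t

/-- boundedness of all members of a family -/
def BddFamily (Γ : ℕ → ℝ → E) : Prop := ∀ k, ∃ M : ℝ, ∀ t, ‖Γ k t‖ ≤ M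

theorem BddFamily.add {Γ Δ : ℕ → ℝ → E} (h : BddFamily Γ) (h' : BddFamily Δ) :
    BddFamily (fun k t => Γ k t + Δ k t) := by
  intro k
  obtain ⟨M, hM⟩ := h k
  obtain ⟨M', hM'⟩ := h' k
  exact ⟨M + M', fun t => (norm_add_le _ _).trans (add_le_add (hM t) (hM' t))⟩

theorem BddFamily.smul {Γ : ℕ → ℝ → E} (h : BddFamily Γ) (c : ℝ) :
    BddFamily (fun k t => c • Γ k t) := by
  intro k
  obtain ⟨M, hM⟩ := h k
  refine ⟨‖c‖ * M, fun t => ?_⟩
  rw [norm_smul]
  exact mul_le_mul_of_nonneg_left (hM t) (norm_nonneg _)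

theorem BddFamily.sum {l : ℕ} {Γ : ℕ → ℕ → ℝ → E} (h : ∀ j < l, BddFamily (Γ j)) :
    BddFamily (fun k t => ∑ j ∈ range l, Γ j k t) := by
  intro k
  have h' : ∀ j, ∃ M : ℝ, j < l → ∀ t, ‖Γ j k t‖ ≤ M := by
    intro j
    by_cases hj : j < l
    · obtain ⟨M, hM⟩ := h j hj k
      exact ⟨M, fun _ => hM⟩
    · exact ⟨0, fun h => absurd h hj⟩
  choose M hM using h'
  refine ⟨∑ j ∈ range l, M j, fun t => (norm_sum_le _ _).trans (sum_le_sum fun j hj => ?_)⟩
  exact hM j (mem_range.1 hj) t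

end family

/-! ### Trigonometric families -/

/-- `ω^k cos(ωt + kπ/2)`, the `k`-th derivative of `cos ωt` -/
noncomputable def cosF (ω : ℝ) (k : ℕ) (t : ℝ) : ℝ := ω ^ k * Real.cos (ω * t + k * (π / 2))

/-- `ω^k sin(ωt + kπ/2)`, the `k`-th derivative of `sin ωt` -/
noncomputable def sinF (ω : ℝ) (k : ℕ) (t : ℝ) : ℝ := ω ^ k * Real.sin (ω * t + k * (π / 2))

theorem cosF_family (ω : ℝ) : DerivFamily (cosF ω) := by
  intro k t
  have h1 : HasDerivAt (fun t : ℝ => ω * t + k * (π / 2)) ω t := by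
    simpa using ((hasDerivAt_id t).const_mul ω).add_const (k * (π / 2))
  have h2 := (h1.cos).const_mul (ω ^ k)
  have e : ω ^ k * (-Real.sin (ω * t + k * (π / 2)) * ω) = cosF ω (k + 1) t := by
    unfold cosF
    have : ω * t + ((k + 1 : ℕ) : ℝ) * (π / 2) = (ω * t + k * (π / 2)) + π / 2 := by
      push_cast; ring
    rw [this, Real.cos_add_pi_div_two]
    ring
  rw [← e]
  exact h2

theorem sinF_family (ω : ℝ) : DerivFamily (sinF ω) := by
  intro k t
  have h1 : HasDerivAt (fun t : ℝ => ω * t + k * (π / 2)) ω t := by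
    simpa using ((hasDerivAt_id t).const_mul ω).add_const (k * (π / 2))
  have h2 := (h1.sin).const_mul (ω ^ k)
  have e : ω ^ k * (Real.cos (ω * t + k * (π / 2)) * ω) = sinF ω (k + 1) t := by
    unfold sinF
    have : ω * t + ((k + 1 : ℕ) : ℝ) * (π / 2) = (ω * t + k * (π / 2)) + π / 2 := by
      push_cast; ring
    rw [this, Real.sin_add_pi_div_two]
    ring
  rw [← e]
  exact h2

theorem cosF_bdd (ω : ℝ) (k : ℕ) (t : ℝ) : ‖cosF ω k t‖ ≤ |ω| ^ k := by
  unfold cosF
  rw [norm_mul, norm_pow, Real.norm_eq_abs, Real.norm_eq_abs]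
  exact mul_le_of_le_one_right (by positivity) (Real.abs_cos_le_one _)

theorem sinF_bdd (ω : ℝ) (k : ℕ) (t : ℝ) : ‖sinF ω k t‖ ≤ |ω| ^ k := by
  unfold sinF
  rw [norm_mul, norm_pow, Real.norm_eq_abs, Real.norm_eq_abs]
  exact mul_le_of_le_one_right (by positivity) (Real.abs_sin_le_one _)

section vec

variable {E : Type*} [NormedAddCommGroup E] [NormedSpace ℝ E]

/-- vector valued trigonometric family with one frequency -/
noncomputable def trigF (ω : ℝ) (u v : E) (k : ℕ) (t : ℝ) : E :=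
  cosF ω k t • u + sinF ω k t • v

theorem trigF_family (ω : ℝ) (u v : E) : DerivFamily (trigF ω u v) := by
  intro k t
  exact ((cosF_family ω k t).smul_const u).add ((sinF_family ω k t).smul_const v)

theorem trigF_bdd (ω : ℝ) (u v : E) : BddFamily (trigF ω u v) := by
  intro k
  refine ⟨|ω| ^ k * ‖u‖ + |ω| ^ k * ‖v‖, fun t => ?_⟩
  unfold trigF
  refine (norm_add_le _ _).trans ?_
  rw [norm_smul, norm_smul]
  exact add_le_add (mul_le_mul_of_nonneg_right (cosF_bdd ω k t) (norm_nonneg _))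
    (mul_le_mul_of_nonneg_right (sinF_bdd ω k t) (norm_nonneg _))

theorem trigF_periodic (ω : ℕ) (u v : E) (t : ℝ) :
    trigF ω u v 0 (t + 2 * π) = trigF ω u v 0 t := by
  unfold trigF cosF sinF
  have e : (ω : ℝ) * (t + 2 * π) + ((0 : ℕ) : ℝ) * (π / 2) =
      (ω * t + ((0 : ℕ) : ℝ) * (π / 2)) + ω * (2 * π) := by ring
  rw [e, Real.cos_add_nat_mul_two_pi, Real.sin_add_nat_mul_two_pi]

end vec

/-! ### Basis vectors and inner products -/

/-- the `i`-th standard basis vector (zero if `i ≥ n`) -/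
noncomputable def ee (n i : ℕ) : Eucl n := WithLp.toLp 2 fun x : Fin n => if (x : ℕ) = i then 1 else 0

/-- the `i`-th coordinate (zero if `i ≥ n`) -/
noncomputable def co {n : ℕ} (ξ : Eucl n) (i : ℕ) : ℝ := if h : i < n then ξ ⟨i, h⟩ else 0

theorem inner_ee {n : ℕ} (i : ℕ) (ξ : Eucl n) : inner ℝ (ee n i) ξ = co ξ i := by
  unfold ee co
  rw [PiLp.inner_apply]
  simp only [RCLike.inner_apply, conj_trivial]
  split_ifs with h
  · rw [Finset.sum_eq_single ⟨i, h⟩]
    · simp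
    · intro b _ hb
      have : (b : ℕ) ≠ i := fun h' => hb (Fin.ext h')
      simp [this]
    · intro h'; exact absurd (Finset.mem_univ _) h'
  · apply Finset.sum_eq_zero
    intro b _
    have : (b : ℕ) ≠ i := fun h' => h (h' ▸ b.2)
    simp [this]

/-- `a cos(x + kπ/2) + b sin(x + kπ/2)` -/
noncomputable def tt (x a b : ℝ) (k : ℕ) : ℝ :=
  a * Real.cos (x + k * (π / 2)) + b * Real.sin (x + k * (π / 2))

theorem tt_add_two (x a b : ℝ) (k : ℕ) : tt x a b (k + 2) = -tt x a b k := by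
  unfold tt
  have e : x + ((k + 2 : ℕ) : ℝ) * (π / 2) = (x + k * (π / 2)) + π := by push_cast; ring
  rw [e, Real.cos_add_pi, Real.sin_add_pi]
  ring

theorem tt_add_even (x a b : ℝ) (r p : ℕ) : tt x a b (r + 2 * p) = (-1) ^ p * tt x a b r := by
  induction p with
  | zero => simp
  | succ p ih =>
    rw [show r + 2 * (p + 1) = (r + 2 * p) + 2 by ring, tt_add_two, ih]
    ring

theorem tt_one (x a b : ℝ) : tt x a b 1 = -a * Real.sin x + b * Real.cos x := by
  unfold tt
  rw [show x + ((1 : ℕ) : ℝ) * (π / 2) = x + π / 2 by push_cast; ring,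
    Real.cos_add_pi_div_two, Real.sin_add_pi_div_two]
  ring

theorem tt_two (x a b : ℝ) : tt x a b 2 = -a * Real.cos x - b * Real.sin x := by
  rw [show (2 : ℕ) = 0 + 2 by rfl, tt_add_two]
  unfold tt
  simp
  ring

theorem tt_three (x a b : ℝ) : tt x a b 3 = a * Real.sin x - b * Real.cos x := by
  rw [show (3 : ℕ) = 1 + 2 by rfl, tt_add_two, tt_one]
  ring

theorem block_zero {x a b : ℝ} (h1 : tt x a b 1 = 0) (h2 : tt x a b 2 = 0) : a = 0 ∧ b = 0 := by
  rw [tt_one] at h1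
  rw [tt_two] at h2
  have hs := Real.sin_sq_add_cos_sq x
  constructor
  · linear_combination (-Real.sin x) * h1 - Real.cos x * h2 - a * hs
  · linear_combination (Real.cos x) * h1 - Real.sin x * h2 - b * hs

theorem inner_trigF {n : ℕ} (ω : ℝ) (i i' : ℕ) (k : ℕ) (t : ℝ) (ξ : Eucl n) :
    inner ℝ (trigF ω (ee n i) (ee n i') k t) ξ = ω ^ k * tt (ω * t) (co ξ i) (co ξ i') k := by
  unfold trigF cosF sinF tt
  rw [inner_add_left, inner_smul_left, inner_smul_left, inner_ee, inner_ee]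
  simp only [conj_trivial]
  ring

/-! ### The Vandermonde argument -/

theorem vander (l : ℕ) (ω : ℕ → ℝ) (hω : ∀ j < l, 0 < ω j)
    (hinj : ∀ i < l, ∀ j < l, ω i = ω j → i = j) (w : ℕ → ℝ) (hw : ∀ j < l, w j ≠ 0)
    (x a b : ℕ → ℝ)
    (h : ∀ k, 1 ≤ k → k ≤ 2 * l →
      ∑ j ∈ range l, w j * (ω j ^ k * tt (x j) (a j) (b j) k) = 0) :
    ∀ j < l, a j = 0 ∧ b j = 0 := by
  have key : ∀ r, 1 ≤ r → r ≤ 2 → ∀ j < l, tt (x j) (a j) (b j) r = 0 := by
    intro r hr1 hr2 j hj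
    have hf : Function.Injective (fun i : Fin l => (ω i) ^ 2) := by
      intro i i' hii
      have h1 := hω i i.2
      have h2 := hω i' i'.2
      have h3 : ω i = ω i' := by
        have := hii
        simp only at this
        nlinarith
      exact Fin.ext (hinj i i.2 i' i'.2 h3)
    have hv := Matrix.eq_zero_of_forall_pow_sum_mul_pow_eq_zero (f := fun i : Fin l => (ω i) ^ 2)
      (v := fun i : Fin l => w i * (ω i ^ r * tt (x i) (a i) (b i) r)) hf (by
        intro i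
        have h1 := h (r + 2 * (i : ℕ)) (by omega) (by have := i.2; omega)
        rw [Finset.sum_range] at h1
        have h2 : ∑ j : Fin l, w j * (ω j ^ (r + 2 * (i : ℕ)) *
            tt (x j) (a j) (b j) (r + 2 * (i : ℕ))) =
            (-1) ^ (i : ℕ) * ∑ j : Fin l, (w j * (ω j ^ r * tt (x j) (a j) (b j) r)) *
              ((ω j) ^ 2) ^ (i : ℕ) := by
          rw [Finset.mul_sum]
          apply Finset.sum_congr rfl
          intro j _
          rw [tt_add_even, ← pow_mul]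
          ring
        rw [h2] at h1
        rcases mul_eq_zero.1 h1 with h3 | h3
        · exact absurd h3 (pow_ne_zero _ (by norm_num))
        · exact h3)
    have h4 := congrFun hv ⟨j, hj⟩
    simp only [Pi.zero_apply] at h4
    rcases mul_eq_zero.1 h4 with h5 | h5
    · exact absurd h5 (hw j hj)
    · rcases mul_eq_zero.1 h5 with h6 | h6
      · exact absurd h6 (pow_ne_zero _ (hω j hj).ne')
      · exact h6
  intro j hj
  exact block_zero (key 1 le_rfl (by norm_num) j hj) (key 2 (by norm_num) le_rfl j hj)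

/-! ### Linear independence from inner products -/

theorem linInd_of_inner {n : ℕ} (v : Fin n → Eucl n)
    (h : ∀ ξ : Eucl n, (∀ k, inner ℝ (v k) ξ = 0) → ξ = 0) : LinearIndependent ℝ v := by
  apply linearIndependent_of_top_le_span_of_card_eq_finrank
  · rw [top_le_iff, ← Submodule.orthogonal_eq_bot_iff, Submodule.eq_bot_iff]
    intro ξ hξ
    apply h
    intro k
    exact (Submodule.mem_orthogonal _ _).1 hξ _ (Submodule.subset_span ⟨k, rfl⟩)
  · simp

theorem eq_zero_of_co {n : ℕ} {ξ : Eucl n} (h : ∀ i < n, co ξ i = 0) : ξ = 0 := by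
  ext i
  have := h i i.2
  unfold co at this
  rw [dif_pos i.2] at this
  simpa using this

/-! ### The circle -/

theorem circle_eq (n : ℕ) : circleCurve n 1 = trigF 1 (ee n 0) (ee n 1) 0 := by
  funext t
  unfold circleCurve trigF cosF sinF ee
  ext i
  simp only [PiLp.add_apply, PiLp.smul_apply, smul_eq_mul]
  by_cases h0 : (i : ℕ) = 0
  · simp [h0]
  · by_cases h1 : (i : ℕ) = 1
    · simp [h1]
    · simp [h0, h1]

theorem circle_iteratedDeriv (n k : ℕ) :
    iteratedDeriv k (circleCurve n 1) = trigF 1 (ee n 0) (ee n 1) k := by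
  rw [circle_eq, (trigF_family 1 (ee n 0) (ee n 1)).iteratedDeriv k]

/-- The general perturbation scheme. -/
theorem perturb_of_family (n : ℕ) (Δ : ℕ → ℝ → Eucl n) (hΔ : DerivFamily Δ) (hb : BddFamily Δ)
    (hper : ∀ t, Δ 0 (t + 2 * π) = Δ 0 t)
    (hnd : ∀ ε : ℝ, 0 < ε → ∀ t : ℝ, ∀ ξ : Eucl n,
      (∀ k, 1 ≤ k → k ≤ n →
        inner ℝ (trigF 1 (ee n 0) (ee n 1) k t + ε • Δ k t) ξ = 0) → ξ = 0) :
    CirclePerturbsToNondegenerate n 1 := by
  intro r ε hε
  choose M hM using hb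
  set N : ℝ := ∑ k ∈ range (r + 1), |M k| + 1 with hN
  have hNpos : 0 < N := by positivity
  have hMN : ∀ k ≤ r, ∀ t, ‖Δ k t‖ ≤ N - 1 := by
    intro k hk t
    refine (hM k t).trans ((le_abs_self _).trans ?_)
    rw [hN, add_sub_cancel_right]
    exact Finset.single_le_sum (f := fun k => |M k|) (fun i _ => abs_nonneg _)
      (mem_range.2 (by omega))
  set η : ℝ := ε / N with hη
  have hηpos : 0 < η := by positivity
  have hfam : DerivFamily (fun k t => trigF 1 (ee n 0) (ee n 1) k t + η • Δ k t) :=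
    (trigF_family 1 _ _).add (hΔ.smul η)
  refine ⟨fun t => trigF 1 (ee n 0) (ee n 1) 0 t + η • Δ 0 t, ⟨hfam.contDiff, ?_, ?_⟩, ?_⟩
  · intro t
    have := trigF_periodic 1 (ee n 0) (ee n 1) t
    simp only [Nat.cast_one] at this
    simp only [this, hper t]
  · intro t
    apply linInd_of_inner
    intro ξ hξ
    apply hnd η hηpos t ξ
    intro k hk1 hkn
    have h1 := hξ ⟨k - 1, by omega⟩
    have h2 : ((⟨k - 1, by omega⟩ : Fin n) : ℕ) + 1 = k := by simp; omega
    rw [h2] at h1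
    have h3 := congrFun (hfam.iteratedDeriv k) t
    rw [← h3]
    exact h1
  · intro k hk t
    have h3 := congrFun (hfam.iteratedDeriv k) t
    rw [circle_iteratedDeriv]
    have h4 : iteratedDeriv k (fun t => trigF 1 (ee n 0) (ee n 1) 0 t + η • Δ 0 t) t -
        trigF 1 (ee n 0) (ee n 1) k t = η • Δ k t := by
      rw [h3]; abel
    rw [h4, norm_smul, Real.norm_eq_abs, abs_of_pos hηpos]
    calc η * ‖Δ k t‖ ≤ η * (N - 1) := mul_le_mul_of_nonneg_left (hMN k hk t) hηpos.le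
      _ < η * N := by nlinarith
      _ = ε := by rw [hη]; field_simp

/-! ### Even dimension -/

theorem perturb_even (l : ℕ) (hl : 1 ≤ l) : CirclePerturbsToNondegenerate (2 * l) 1 := by
  set n := 2 * l with hn
  -- the perturbation: circles of frequency `j + 2` in the coordinate planes `2j+2, 2j+3`
  apply perturb_of_family n
    (fun k t => ∑ j ∈ range (l - 1),
      trigF (((j + 2 : ℕ) : ℝ)) (ee n (2 * (j + 1))) (ee n (2 * (j + 1) + 1)) k t)
  · exact DerivFamily.sum (fun j _ => trigF_family _ _ _)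
  · exact BddFamily.sum (fun j _ => trigF_bdd _ _ _)
  · intro t
    apply Finset.sum_congr rfl
    intro j _
    exact trigF_periodic (j + 2) _ _ t
  · intro ε hε t ξ h
    have hv := vander l (fun j => (j : ℝ) + 1) (fun j _ => by positivity)
      (fun i _ j _ hij => by
        have : (i : ℝ) = j := by linarith
        exact_mod_cast this)
      (fun j => if j = 0 then 1 else ε) (fun j _ => by
        split_ifs
        · norm_num
        · exact hε.ne')
      (fun j => ((j : ℝ) + 1) * t) (fun j => co ξ (2 * j)) (fun j => co ξ (2 * j + 1)) (by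
        intro k hk1 hk2
        have h1 := h k hk1 (by omega)
        rw [inner_add_left, inner_smul_left, sum_inner, inner_trigF] at h1
        simp only [conj_trivial] at h1
        obtain ⟨l', rfl⟩ : ∃ l', l = l' + 1 := ⟨l - 1, by omega⟩
        rw [Finset.sum_range_succ']
        simp only [Nat.add_sub_cancel] at h1
        have h2 : ∑ j ∈ range l', (if j + 1 = 0 then (1 : ℝ) else ε) *
            ((((j + 1 : ℕ) : ℝ) + 1) ^ k * tt ((((j + 1 : ℕ) : ℝ) + 1) * t)
              (co ξ (2 * (j + 1))) (co ξ (2 * (j + 1) + 1)) k) =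
            ε * ∑ j ∈ range l', inner ℝ (trigF (((j + 2 : ℕ) : ℝ)) (ee n (2 * (j + 1)))
              (ee n (2 * (j + 1) + 1)) k t) ξ := by
          rw [Finset.mul_sum]
          apply Finset.sum_congr rfl
          intro j _
          rw [inner_trigF, if_neg (by omega)]
          have : (((j + 1 : ℕ) : ℝ) + 1) = ((j + 2 : ℕ) : ℝ) := by push_cast; ring
          rw [this]
        rw [h2]
        simp only [Nat.cast_zero, zero_add, if_true, mul_zero, one_mul, one_pow] at h1 ⊢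
        linarith)
    apply eq_zero_of_co
    intro i hi
    rcases Nat.even_or_odd' i with ⟨j, rfl | rfl⟩
    · exact (hv j (by omega)).1
    · exact (hv j (by omega)).2

/-! ### Odd dimension -/

theorem elim_single (Q : Polynomial ℝ) (l : ℕ) (hQ : Q.natDegree ≤ l) (ν x a b : ℝ) (r : ℕ) :
    ∑ p ∈ range (l + 1), Q.coeff p * (-1) ^ p * (ν ^ (r + 2 * p) * tt x a b (r + 2 * p)) =
      ν ^ r * tt x a b r * Q.eval (ν ^ 2) := by
  rw [Polynomial.eval_eq_sum_range' (Nat.lt_succ_of_le hQ), Finset.mul_sum]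
  apply Finset.sum_congr rfl
  intro p _
  rw [tt_add_even]
  have h1 : ((-1 : ℝ) ^ p) * (-1) ^ p = 1 := by
    rw [← mul_pow]; norm_num
  have h2 : ν ^ (r + 2 * p) = ν ^ r * (ν ^ 2) ^ p := by rw [pow_add, pow_mul]
  rw [h2]
  linear_combination (Q.coeff p * (ν ^ r * (ν ^ 2) ^ p) * tt x a b r) * h1

theorem three_by_three {t ξ1 ξ2 ξ3 : ℝ}
    (h1 : 4 * tt (4 * t) ξ1 ξ2 1 + 2 * (2 * tt (2 * t) ξ1 (-ξ2) 1) + 6 * tt (6 * t) 0 ξ3 1 = 0)
    (h2 : 4 ^ 2 * tt (4 * t) ξ1 ξ2 2 + 2 * (2 ^ 2 * tt (2 * t) ξ1 (-ξ2) 2)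
      + 6 ^ 2 * tt (6 * t) 0 ξ3 2 = 0)
    (h3 : 4 ^ 3 * tt (4 * t) ξ1 ξ2 3 + 2 * (2 ^ 3 * tt (2 * t) ξ1 (-ξ2) 3)
      + 6 ^ 3 * tt (6 * t) 0 ξ3 3 = 0) : ξ1 = 0 ∧ ξ2 = 0 ∧ ξ3 = 0 := by
  rw [tt_one, tt_one, tt_one] at h1
  rw [tt_two, tt_two, tt_two] at h2
  rw [tt_three, tt_three, tt_three] at h3
  have e4 : 4 * t = 2 * (2 * t) := by ring
  have e6 : 6 * t = 3 * (2 * t) := by ring
  rw [e4, e6, Real.sin_two_mul (2 * t), Real.cos_two_mul (2 * t), Real.sin_three_mul, Real.cos_three_mul] at h1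
  rw [e4, e6, Real.sin_two_mul (2 * t), Real.cos_two_mul (2 * t), Real.sin_three_mul, Real.cos_three_mul] at h2
  rw [e4, e6, Real.sin_two_mul (2 * t), Real.cos_two_mul (2 * t), Real.sin_three_mul, Real.cos_three_mul] at h3
  have hs := Real.sin_sq_add_cos_sq (2 * t)
  set s := Real.sin (2 * t)
  set c := Real.cos (2 * t)
  clear_value s c
  -- abbreviations
  obtain ⟨Y, hY⟩ : ∃ Y, Y = -ξ1 * s - ξ2 * c := ⟨_, rfl⟩
  obtain ⟨Y', hY'⟩ : ∃ Y', Y' = -ξ1 * c + ξ2 * s := ⟨_, rfl⟩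
  obtain ⟨C, hC⟩ : ∃ C, C = 4 * c ^ 3 - 3 * c := ⟨_, rfl⟩
  obtain ⟨S, hS⟩ : ∃ S, S = 3 * s - 4 * s ^ 3 := ⟨_, rfl⟩
  obtain ⟨Z, hZ⟩ : ∃ Z, Z = -ξ1 * (2 * s * c) + ξ2 * (2 * c ^ 2 - 1) := ⟨_, rfl⟩
  obtain ⟨Z', hZ'⟩ : ∃ Z', Z' = -ξ1 * (2 * c ^ 2 - 1) - ξ2 * (2 * s * c) := ⟨_, rfl⟩
  have hs' : s ^ 2 = 1 - c ^ 2 := by linarith
  have hs3 : s ^ 3 = s * (1 - c ^ 2) := by rw [pow_succ, hs']; ring
  have hs4 : s ^ 4 = (1 - c ^ 2) ^ 2 := by rw [← hs']; ring
  have hCS : C ^ 2 + S ^ 2 = 1 := by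
    rw [hC, hS, hs3]
    have : (4 * c ^ 3 - 3 * c) ^ 2 + (3 * s - 4 * (s * (1 - c ^ 2))) ^ 2 =
      (4 * c ^ 3 - 3 * c) ^ 2 + s ^ 2 * (4 * c ^ 2 - 1) ^ 2 := by ring
    rw [this, hs']; ring
  have hZ1 : Z = Y' * S - Y * C := by
    rw [hZ, hY, hY', hC, hS, hs3]
    have : (-ξ1 * c + ξ2 * s) * (3 * s - 4 * (s * (1 - c ^ 2))) -
        (-ξ1 * s - ξ2 * c) * (4 * c ^ 3 - 3 * c) =
        -ξ1 * (2 * s * c) + ξ2 * (s ^ 2 * (4 * c ^ 2 - 1) + c * (4 * c ^ 3 - 3 * c)) := by ring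
    rw [this, hs']; ring
  have hZ2 : Z' = Y' * C + Y * S := by
    rw [hZ', hY, hY', hC, hS, hs3]
    have : (-ξ1 * c + ξ2 * s) * (4 * c ^ 3 - 3 * c) +
        (-ξ1 * s - ξ2 * c) * (3 * s - 4 * (s * (1 - c ^ 2))) =
        -ξ1 * (c * (4 * c ^ 3 - 3 * c) + s ^ 2 * (4 * c ^ 2 - 1)) - ξ2 * (2 * s * c) := by ring
    rw [this, hs']; ring
  have hYY : ξ1 ^ 2 + ξ2 ^ 2 = Y ^ 2 + Y' ^ 2 := by
    rw [hY, hY']
    have : (-ξ1 * s - ξ2 * c) ^ 2 + (-ξ1 * c + ξ2 * s) ^ 2 = (ξ1 ^ 2 + ξ2 ^ 2) * (s ^ 2 + c ^ 2) := by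
      ring
    rw [this, hs]; ring
  have E1 : 4 * Z + 4 * Y + 6 * (ξ3 * C) = 0 := by
    rw [hZ, hY, hC]; linarith
  have E2 : 16 * Z' + 8 * Y' - 36 * (ξ3 * S) = 0 := by
    rw [hZ', hY', hS]; linarith
  have E3 : -64 * Z - 16 * Y - 216 * (ξ3 * C) = 0 := by
    rw [hZ, hY, hC]; linarith
  have F1 : Z = -4 * (ξ3 * C) := by linarith
  have F2 : Y = 5 / 2 * (ξ3 * C) := by linarith
  have F3 : Y' * S = -4 * (ξ3 * C) + 5 / 2 * (ξ3 * C) * C := by
    rw [← F1, ← F2]; linarith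
  have F4 : Y' * (16 * C + 8) + 40 * (ξ3 * C) * S - 36 * (ξ3 * S) = 0 := by
    rw [hZ2, F2] at E2; linarith
  have F5 : ξ3 * (8 * C ^ 2 - 8 * C + 36) = 0 := by
    have h5 : (Y' * S) * (16 * C + 8) + 40 * (ξ3 * C) * S ^ 2 - 36 * (ξ3 * S ^ 2) = 0 := by
      linear_combination S * F4
    rw [F3, show S ^ 2 = 1 - C ^ 2 by linarith] at h5
    linear_combination -h5
  have F6 : ξ3 = 0 := by
    rcases mul_eq_zero.1 F5 with h | h
    · exact h
    · exfalso; nlinarith [sq_nonneg (2 * C - 1)]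
  rw [F6] at F2 F3 F4
  have F7 : Y = 0 := by rw [F2]; ring
  have F8 : Y' * S = 0 := by rw [F3]; ring
  have F9 : Y' = -2 * (Y' * C) := by linarith
  have F10 : Y' = 0 := by
    have : Y' ^ 2 = (Y' * C) ^ 2 + (Y' * S) ^ 2 := by
      linear_combination (-Y' ^ 2) * hCS
    rw [F8] at this
    have h' : (Y' * C) = -Y' / 2 := by linarith
    rw [h'] at this
    have h'' : Y' ^ 2 = 0 := by linarith
    exact (pow_eq_zero_iff two_ne_zero).1 h''
  rw [F7, F10] at hYY
  have q1 := sq_nonneg ξ1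
  have q2 := sq_nonneg ξ2
  refine ⟨?_, ?_, F6⟩
  · exact (pow_eq_zero_iff two_ne_zero).1 (by linarith)
  · exact (pow_eq_zero_iff two_ne_zero).1 (by linarith)

theorem perturb_odd (l : ℕ) (hl : 1 ≤ l) : CirclePerturbsToNondegenerate (2 * l + 3) 1 := by
  set n := 2 * l + 3 with hn
  set Q : Polynomial ℝ := ∏ j ∈ range l, (Polynomial.X - Polynomial.C (((2 * j + 1 : ℕ) : ℝ) ^ 2))
    with hQ
  have hQdeg : Q.natDegree ≤ l := by
    rw [hQ]
    refine (Polynomial.natDegree_prod_le _ _).trans ?_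
    refine (Finset.sum_le_sum (g := fun _ => 1) fun j _ => ?_).trans (by simp)
    exact (Polynomial.natDegree_X_sub_C _).le
  have hQroot : ∀ j < l, Q.eval (((2 * j + 1 : ℕ) : ℝ) ^ 2) = 0 := by
    intro j hj
    rw [hQ, Polynomial.eval_prod]
    apply Finset.prod_eq_zero (mem_range.2 hj)
    simp
  have hQne : ∀ q : ℕ, q % 2 = 0 → Q.eval ((q : ℝ) ^ 2) ≠ 0 := by
    intro q hq
    rw [hQ, Polynomial.eval_prod, Finset.prod_ne_zero_iff]
    intro j _
    simp only [Polynomial.eval_sub, Polynomial.eval_X, Polynomial.eval_C]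
    intro h0
    have h1 : (q : ℝ) ^ 2 = ((2 * j + 1 : ℕ) : ℝ) ^ 2 := by linarith
    have h2 : q ^ 2 = (2 * j + 1) ^ 2 := by exact_mod_cast h1
    have h3 : q = 2 * j + 1 := by
      exact (Nat.pow_left_injective (n := 2) (by norm_num)) h2
    omega
  have hQ4 := hQne 4 (by norm_num)
  have hQ2 := hQne 2 (by norm_num)
  have hQ6 := hQne 6 (by norm_num)
  set α : ℝ := 1 / Q.eval (((4 : ℕ) : ℝ) ^ 2) with hα
  set β : ℝ := 2 / Q.eval (((2 : ℕ) : ℝ) ^ 2) with hβ
  set δ : ℝ := 1 / Q.eval (((6 : ℕ) : ℝ) ^ 2) with hδ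
  apply perturb_of_family n
    (fun k t => (∑ j ∈ range (l - 1),
      trigF (((2 * (j + 1) + 1 : ℕ) : ℝ)) (ee n (2 * (j + 1))) (ee n (2 * (j + 1) + 1)) k t) +
      (α • trigF ((4 : ℕ) : ℝ) (ee n (2 * l)) (ee n (2 * l + 1)) k t +
        (β • trigF ((2 : ℕ) : ℝ) (ee n (2 * l)) (-ee n (2 * l + 1)) k t +
          δ • trigF ((6 : ℕ) : ℝ) 0 (ee n (2 * l + 2)) k t)))
  · refine (DerivFamily.sum (fun j _ => trigF_family _ _ _)).add ?_
    exact ((trigF_family _ _ _).smul α).add (((trigF_family _ _ _).smul β).add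
      ((trigF_family _ _ _).smul δ))
  · refine (BddFamily.sum (fun j _ => trigF_bdd _ _ _)).add ?_
    exact ((trigF_bdd _ _ _).smul α).add (((trigF_bdd _ _ _).smul β).add
      ((trigF_bdd _ _ _).smul δ))
  · intro t
    simp only [trigF_periodic]
  · intro ε hε t ξ h
    -- the equations
    set w : ℕ → ℝ := fun j => if j = 0 then 1 else ε with hw
    set ω : ℕ → ℝ := fun j => ((2 * j + 1 : ℕ) : ℝ) with hω
    have heq : ∀ k, 1 ≤ k → k ≤ 2 * l + 3 →
        ∑ j ∈ range l, w j * (ω j ^ k * tt (ω j * t) (co ξ (2 * j)) (co ξ (2 * j + 1)) k) +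
        ε * (α * (4 ^ k * tt (4 * t) (co ξ (2 * l)) (co ξ (2 * l + 1)) k) +
          β * (2 ^ k * tt (2 * t) (co ξ (2 * l)) (-co ξ (2 * l + 1)) k) +
          δ * (6 ^ k * tt (6 * t) 0 (co ξ (2 * l + 2)) k)) = 0 := by
      intro k hk1 hk2
      have h1 := h k hk1 (by omega)
      rw [inner_add_left, inner_smul_left, inner_add_left, sum_inner, inner_trigF,
        inner_add_left, inner_add_left, inner_smul_left, inner_smul_left, inner_smul_left,
        inner_trigF] at h1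
      have h5 : inner ℝ (trigF ((2 : ℕ) : ℝ) (ee n (2 * l)) (-ee n (2 * l + 1)) k t) ξ =
          2 ^ k * tt (2 * t) (co ξ (2 * l)) (-co ξ (2 * l + 1)) k := by
        unfold trigF cosF sinF tt
        rw [inner_add_left, inner_smul_left, inner_smul_left, inner_neg_left, inner_ee, inner_ee]
        simp only [conj_trivial]
        push_cast
        ring
      have h6 : inner ℝ (trigF ((6 : ℕ) : ℝ) (0 : Eucl n) (ee n (2 * l + 2)) k t) ξ =
          6 ^ k * tt (6 * t) 0 (co ξ (2 * l + 2)) k := by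
        unfold trigF cosF sinF tt
        rw [inner_add_left, inner_smul_left, inner_smul_left, inner_zero_left, inner_ee]
        simp only [conj_trivial]
        push_cast
        ring
      rw [h5, h6] at h1
      simp only [conj_trivial] at h1
      obtain ⟨l', hl'⟩ : ∃ l', l = l' + 1 := ⟨l - 1, by omega⟩
      have h2 : ∑ j ∈ range l, w j * (ω j ^ k * tt (ω j * t) (co ξ (2 * j)) (co ξ (2 * j + 1)) k)
          = ε * (∑ j ∈ range (l - 1), inner ℝ (trigF (((2 * (j + 1) + 1 : ℕ) : ℝ))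
            (ee n (2 * (j + 1))) (ee n (2 * (j + 1) + 1)) k t) ξ) +
            1 ^ k * tt (1 * t) (co ξ 0) (co ξ 1) k := by
        have : range l = range (l' + 1) := by rw [hl']
        rw [this, Finset.sum_range_succ', show l - 1 = l' by omega, Finset.mul_sum]
        congr 1
        · apply Finset.sum_congr rfl
          intro j _
          rw [inner_trigF]
          simp only [hw, hω]
          rw [if_neg (by omega)]
        · simp [hw, hω]
      rw [h2]
      push_cast at h1 ⊢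
      linarith
    -- elimination
    have helim : ∀ r, 1 ≤ r → r ≤ 3 →
        4 ^ r * tt (4 * t) (co ξ (2 * l)) (co ξ (2 * l + 1)) r +
        2 * (2 ^ r * tt (2 * t) (co ξ (2 * l)) (-co ξ (2 * l + 1)) r) +
        6 ^ r * tt (6 * t) 0 (co ξ (2 * l + 2)) r = 0 := by
      intro r hr1 hr3
      have h1 : ∑ p ∈ range (l + 1), Q.coeff p * (-1) ^ p *
          (∑ j ∈ range l, w j * (ω j ^ (r + 2 * p) *
            tt (ω j * t) (co ξ (2 * j)) (co ξ (2 * j + 1)) (r + 2 * p)) +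
          ε * (α * (4 ^ (r + 2 * p) * tt (4 * t) (co ξ (2 * l)) (co ξ (2 * l + 1)) (r + 2 * p)) +
            β * (2 ^ (r + 2 * p) * tt (2 * t) (co ξ (2 * l)) (-co ξ (2 * l + 1)) (r + 2 * p)) +
            δ * (6 ^ (r + 2 * p) * tt (6 * t) 0 (co ξ (2 * l + 2)) (r + 2 * p)))) = 0 := by
        apply Finset.sum_eq_zero
        intro p hp
        have hp' := mem_range.1 hp
        rw [heq (r + 2 * p) (by omega) (by omega), mul_zero]
      have h2 : ∑ p ∈ range (l + 1), Q.coeff p * (-1) ^ p *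
          (∑ j ∈ range l, w j * (ω j ^ (r + 2 * p) *
            tt (ω j * t) (co ξ (2 * j)) (co ξ (2 * j + 1)) (r + 2 * p))) = 0 := by
        have h3 : ∀ p ∈ range (l + 1), Q.coeff p * (-1) ^ p *
          (∑ j ∈ range l, w j * (ω j ^ (r + 2 * p) *
            tt (ω j * t) (co ξ (2 * j)) (co ξ (2 * j + 1)) (r + 2 * p))) =
            ∑ j ∈ range l, w j * (Q.coeff p * (-1) ^ p * (ω j ^ (r + 2 * p) *
            tt (ω j * t) (co ξ (2 * j)) (co ξ (2 * j + 1)) (r + 2 * p))) := by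
          intro p _
          rw [Finset.mul_sum]
          apply Finset.sum_congr rfl
          intro j _
          ring
        rw [Finset.sum_congr rfl h3, Finset.sum_comm]
        apply Finset.sum_eq_zero
        intro j hj
        rw [← Finset.mul_sum, elim_single Q l hQdeg, hω]
        simp only
        rw [hQroot j (mem_range.1 hj)]
        ring
      have h4 : ∑ p ∈ range (l + 1), Q.coeff p * (-1) ^ p *
          (∑ j ∈ range l, w j * (ω j ^ (r + 2 * p) *
            tt (ω j * t) (co ξ (2 * j)) (co ξ (2 * j + 1)) (r + 2 * p)) +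
          ε * (α * (4 ^ (r + 2 * p) * tt (4 * t) (co ξ (2 * l)) (co ξ (2 * l + 1)) (r + 2 * p)) +
            β * (2 ^ (r + 2 * p) * tt (2 * t) (co ξ (2 * l)) (-co ξ (2 * l + 1)) (r + 2 * p)) +
            δ * (6 ^ (r + 2 * p) * tt (6 * t) 0 (co ξ (2 * l + 2)) (r + 2 * p)))) =
          (∑ p ∈ range (l + 1), Q.coeff p * (-1) ^ p *
          (∑ j ∈ range l, w j * (ω j ^ (r + 2 * p) *
            tt (ω j * t) (co ξ (2 * j)) (co ξ (2 * j + 1)) (r + 2 * p)))) +
          ε * (α * (∑ p ∈ range (l + 1), Q.coeff p * (-1) ^ p *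
              (4 ^ (r + 2 * p) * tt (4 * t) (co ξ (2 * l)) (co ξ (2 * l + 1)) (r + 2 * p))) +
            β * (∑ p ∈ range (l + 1), Q.coeff p * (-1) ^ p *
              (2 ^ (r + 2 * p) * tt (2 * t) (co ξ (2 * l)) (-co ξ (2 * l + 1)) (r + 2 * p))) +
            δ * (∑ p ∈ range (l + 1), Q.coeff p * (-1) ^ p *
              (6 ^ (r + 2 * p) * tt (6 * t) 0 (co ξ (2 * l + 2)) (r + 2 * p)))) := by
        simp only [Finset.mul_sum, ← Finset.sum_add_distrib]
        apply Finset.sum_congr rfl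
        intro p _
        rw [mul_add, Finset.mul_sum]
        ring
      rw [h4, h2, elim_single Q l hQdeg, elim_single Q l hQdeg, elim_single Q l hQdeg] at h1
      have hα' : α * Q.eval ((4 : ℝ) ^ 2) = 1 := by
        rw [hα]; push_cast at hQ4 ⊢; field_simp
      have hβ' : β * Q.eval ((2 : ℝ) ^ 2) = 2 := by
        rw [hβ]; push_cast at hQ2 ⊢; field_simp
      have hδ' : δ * Q.eval ((6 : ℝ) ^ 2) = 1 := by
        rw [hδ]; push_cast at hQ6 ⊢; field_simp
      have h7 : ε * (4 ^ r * tt (4 * t) (co ξ (2 * l)) (co ξ (2 * l + 1)) r +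
        2 * (2 ^ r * tt (2 * t) (co ξ (2 * l)) (-co ξ (2 * l + 1)) r) +
        6 ^ r * tt (6 * t) 0 (co ξ (2 * l + 2)) r) = 0 := by
        linear_combination h1 - ε * (4 ^ r * tt (4 * t) (co ξ (2 * l)) (co ξ (2 * l + 1)) r) * hα' -
          ε * (2 ^ r * tt (2 * t) (co ξ (2 * l)) (-co ξ (2 * l + 1)) r) * hβ' -
          ε * (6 ^ r * tt (6 * t) 0 (co ξ (2 * l + 2)) r) * hδ'
      rcases mul_eq_zero.1 h7 with h8 | h8
      · exact absurd h8 hε.ne'
      · exact h8
    have e1 := helim 1 le_rfl (by norm_num)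
    have e2 := helim 2 (by norm_num) (by norm_num)
    have e3 := helim 3 (by norm_num) le_rfl
    simp only [pow_one] at e1
    obtain ⟨z1, z2, z3⟩ := three_by_three e1 e2 e3
    have hv := vander l ω (fun j _ => by simp only [hω]; positivity)
      (fun i _ j _ hij => by
        simp only [hω] at hij
        have : 2 * i + 1 = 2 * j + 1 := by exact_mod_cast hij
        omega)
      w (fun j _ => by
        simp only [hw]
        split_ifs
        · norm_num
        · exact hε.ne')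
      (fun j => ω j * t) (fun j => co ξ (2 * j)) (fun j => co ξ (2 * j + 1)) (by
        intro k hk1 hk2
        have h1 := heq k hk1 (by omega)
        rw [z1, z2, z3] at h1
        have h2 : ∀ x : ℝ, tt x 0 0 k = 0 := by intro x; unfold tt; ring
        have h3 : ∀ x : ℝ, tt x 0 (-0) k = 0 := by intro x; unfold tt; ring
        rw [h2, h2, h3] at h1
        linarith)
    apply eq_zero_of_co
    intro i hi
    by_cases hi0 : i < 2 * l
    · rcases Nat.even_or_odd' i with ⟨j, rfl | rfl⟩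
      · exact (hv j (by omega)).1
      · exact (hv j (by omega)).2
    · have : i = 2 * l ∨ i = 2 * l + 1 ∨ i = 2 * l + 2 := by omega
      rcases this with rfl | rfl | rfl
      · exact z1
      · exact z2
      · exact z3

/-- `c_1` can be perturbed to a nondegenerate closed curve in every dimension `n ≥ 4`. -/
theorem perturb_circle (n : ℕ) (hn : 4 ≤ n) : CirclePerturbsToNondegenerate n 1 := by
  rcases Nat.even_or_odd' n with ⟨l, rfl | rfl⟩
  · exact perturb_even l (by omega)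
  · obtain ⟨l', rfl⟩ : ∃ l', l = l' + 1 := ⟨l - 1, by omega⟩
    have := perturb_odd l' (by omega)
    rw [show 2 * (l' + 1) + 1 = 2 * l' + 3 by ring]
    exact this

theorem isLeast_one (n : ℕ) (hn : 4 ≤ n) : IsLeast (perturbableMultiplicities n) 1 :=
  ⟨⟨le_rfl, perturb_circle n hn⟩, fun _ hm => hm.1⟩

theorem mu_eq_one (n : ℕ) (hn : 4 ≤ n) : mu n = 1 := (isLeast_one n hn).csInf_eq

end Pool.Agent.NondegCurves
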