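import Pool.Agent.NondegCurves.Fenchel
import Pool.Agent.NondegCurves.Perturb

set_option autoImplicit false

open Real Set MeasureTheory intervalIntegral Filter Topology InnerProductSpace

namespace Pool.Agent.NondegCurves

section smooth

variable {n : ℕ} {γ : ℝ → Eucl n}

/-- the derivatives `γ^{(k+1)}` -/
noncomputable def der (n : ℕ) (γ : ℝ → Eucl n) (k : ℕ) (t : ℝ) : Eucl n := iteratedDeriv (k + 1) γ t

theorem der_hasDerivAt (hγ : ContDiff ℝ (⊤ : ℕ∞) γ) (k : ℕ) (t : ℝ) :
    HasDerivAt (der n γ k) (der n γ (k + 1) t) t := by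
  have h1 : Differentiable ℝ (iteratedDeriv (k + 1) γ) :=
    hγ.differentiable_iteratedDeriv (k + 1) (by exact_mod_cast WithTop.coe_lt_top _)
  have h2 := (h1 t).hasDerivAt
  unfold der
  rw [iteratedDeriv_succ (n := k + 1)]
  exact h2

theorem der_contDiff (hγ : ContDiff ℝ (⊤ : ℕ∞) γ) (k : ℕ) :
    ContDiff ℝ (⊤ : ℕ∞) (der n γ k) := by
  have h := DerivFamily.contDiff (Γ := fun j => der n γ (k + j))
    (fun j t => der_hasDerivAt hγ (k + j) t)
  simpa using h

/-- the Gram-Schmidt vectors -/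
noncomputable def gsv (n : ℕ) (γ : ℝ → Eucl n) (i : Fin n) (t : ℝ) : Eucl n :=
  gramSchmidt ℝ (fun k : Fin n => iteratedDeriv ((k : ℕ) + 1) γ t) i

theorem gsv_def (i : Fin n) (t : ℝ) :
    gsv n γ i t = der n γ i t - ∑ j ∈ Finset.Iio i,
      (inner ℝ (gsv n γ j t) (der n γ i t) / (‖gsv n γ j t‖ ^ 2)) • gsv n γ j t := by
  unfold gsv der
  rw [gramSchmidt_def]
  congr 1
  apply Finset.sum_congr rfl
  intro j _
  rw [Submodule.starProjection_singleton]
  simp

theorem gsv_ne (hγ : IsNondegenerateClosed n γ) (i : Fin n) (t : ℝ) : gsv n γ i t ≠ 0 :=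
  gramSchmidt_ne_zero i (hγ.2.2 t)

theorem gsv_contDiff (hγ : IsNondegenerateClosed n γ) (i : Fin n) :
    ContDiff ℝ (⊤ : ℕ∞) (gsv n γ i) := by
  induction i using WellFoundedLT.induction with
  | ind i ih =>
    have h1 : gsv n γ i = fun t => der n γ i t - ∑ j ∈ Finset.Iio i,
      (inner ℝ (gsv n γ j t) (der n γ i t) / (‖gsv n γ j t‖ ^ 2)) • gsv n γ j t := by
      funext t; exact gsv_def i t
    rw [h1]
    apply ContDiff.sub (der_contDiff hγ.1 i)
    apply ContDiff.sum
    intro j hj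
    have hj' := ih j (Finset.mem_Iio.1 hj)
    apply ContDiff.fun_smul _ hj'
    apply ContDiff.div
    · exact hj'.inner ℝ (der_contDiff hγ.1 i)
    · exact hj'.norm_sq ℝ
    · intro t
      exact pow_ne_zero 2 (norm_ne_zero_iff.2 (gsv_ne hγ j t))

theorem frenetFrame_eq (i : Fin n) (t : ℝ) :
    frenetFrame n γ i t = (‖gsv n γ i t‖)⁻¹ • gsv n γ i t := by
  unfold frenetFrame
  rw [dif_pos i.2]
  rfl

theorem frenetFrame_contDiff (hγ : IsNondegenerateClosed n γ) (i : ℕ) :
    ContDiff ℝ (⊤ : ℕ∞) (frenetFrame n γ i) := by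
  by_cases h : i < n
  · have h1 : frenetFrame n γ i = fun t => (‖gsv n γ ⟨i, h⟩ t‖)⁻¹ • gsv n γ ⟨i, h⟩ t := by
      funext t; exact frenetFrame_eq ⟨i, h⟩ t
    rw [h1]
    apply ContDiff.fun_smul _ (gsv_contDiff hγ _)
    apply ContDiff.inv
    · exact (gsv_contDiff hγ _).norm ℝ (fun t => gsv_ne hγ _ t)
    · intro t
      exact norm_ne_zero_iff.2 (gsv_ne hγ _ t)
  · have h1 : frenetFrame n γ i = fun _ => 0 := by
      funext t
      unfold frenetFrame
      rw [dif_neg h]
    rw [h1]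
    exact contDiff_const

theorem frenetFrame_inner (hγ : IsNondegenerateClosed n γ) {i j : ℕ} (hi : i < n) (hj : j < n)
    (t : ℝ) : inner ℝ (frenetFrame n γ i t) (frenetFrame n γ j t) = if i = j then (1 : ℝ) else 0 := by
  have h := gramSchmidtNormed_orthonormal (𝕜 := ℝ) (hγ.2.2 t)
  rw [orthonormal_iff_ite] at h
  have h1 := h ⟨i, hi⟩ ⟨j, hj⟩
  unfold frenetFrame
  rw [dif_pos hi, dif_pos hj, h1]
  simp [Fin.ext_iff]

/-- the `i`-th frame vector is orthogonal to the derivatives of lower order -/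
theorem frenetFrame_inner_der_lt {i j : ℕ} (hi : i < n) (hij : j < i) (t : ℝ) :
    inner ℝ (frenetFrame n γ i t) (der n γ j t) = 0 := by
  have h := gramSchmidt_inv_triangular (𝕜 := ℝ)
    (fun k : Fin n => iteratedDeriv ((k : ℕ) + 1) γ t) (i := ⟨j, hij.trans hi⟩) (j := ⟨i, hi⟩)
    (by simpa using hij)
  have h1 := frenetFrame_eq (γ := γ) ⟨i, hi⟩ t
  simp only at h1
  rw [h1, inner_smul_left]
  unfold gsv der
  simp only at h
  rw [h, mul_zero]

theorem frenetFrame_inner_der_self (hγ : IsNondegenerateClosed n γ) {i : ℕ} (hi : i < n) (t : ℝ) :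
    0 < inner ℝ (frenetFrame n γ i t) (der n γ i t) := by
  have h0 : inner ℝ (gsv n γ ⟨i, hi⟩ t) (der n γ i t) = ‖gsv n γ ⟨i, hi⟩ t‖ ^ 2 := by
    have h1 := gsv_def (γ := γ) ⟨i, hi⟩ t
    have h2 : der n γ i t = gsv n γ ⟨i, hi⟩ t + ∑ j ∈ Finset.Iio (⟨i, hi⟩ : Fin n),
      (inner ℝ (gsv n γ j t) (der n γ i t) / (‖gsv n γ j t‖ ^ 2)) • gsv n γ j t := by
      rw [eq_sub_iff_add_eq] at h1
      exact h1.symm
    rw [h2, inner_add_right, real_inner_self_eq_norm_sq, inner_sum]
    rw [Finset.sum_eq_zero, add_zero]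
    intro j hj
    rw [inner_smul_right]
    have : inner ℝ (gsv n γ ⟨i, hi⟩ t) (gsv n γ j t) = 0 :=
      gramSchmidt_orthogonal ℝ _ (Finset.mem_Iio.1 hj).ne'
    rw [this, mul_zero]
  have h1 := frenetFrame_eq (γ := γ) ⟨i, hi⟩ t
  simp only at h1
  rw [h1, inner_smul_left, h0]
  simp only [conj_trivial]
  have h3 : 0 < ‖gsv n γ ⟨i, hi⟩ t‖ := norm_pos_iff.2 (gsv_ne hγ _ t)
  positivity

/-- expansion of a derivative in the frame -/
theorem frame_hasDerivAt (hγ : IsNondegenerateClosed n γ) (i : ℕ) (t : ℝ) :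
    HasDerivAt (frenetFrame n γ i) (deriv (frenetFrame n γ i) t) t :=
  (((frenetFrame_contDiff hγ i).differentiable (by simp)) t).hasDerivAt

theorem deriv_frame_continuous (hγ : IsNondegenerateClosed n γ) (i : ℕ) :
    Continuous (deriv (frenetFrame n γ i)) :=
  (frenetFrame_contDiff hγ i).continuous_deriv (by simp)

theorem der_zero_eq (hn : 0 < n) (t : ℝ) :
    der n γ 0 t = ‖der n γ 0 t‖ • frenetFrame n γ 0 t ∧
      gsv n γ ⟨0, hn⟩ t = der n γ 0 t := by
  have h1 := gsv_def (γ := γ) ⟨0, hn⟩ t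
  have h2 : Finset.Iio (⟨0, hn⟩ : Fin n) = ∅ := by
    ext j
    simp [Fin.lt_def]
  rw [h2, Finset.sum_empty, sub_zero] at h1
  simp only at h1
  refine ⟨?_, h1⟩
  have h3 := frenetFrame_eq (γ := γ) ⟨0, hn⟩ t
  simp only at h3
  rw [h3, h1, smul_smul]
  by_cases h4 : der n γ 0 t = 0
  · rw [h4]; simp
  · rw [mul_inv_cancel₀ (norm_ne_zero_iff.2 h4), one_smul]

theorem der_one_eq (hγ : IsNondegenerateClosed n γ) (hn : 1 < n) (t : ℝ) :
    ∃ c b : ℝ, 0 < b ∧ der n γ 1 t = b • frenetFrame n γ 1 t + c • frenetFrame n γ 0 t := by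
  have h1 := gsv_def (γ := γ) ⟨1, hn⟩ t
  have h0 : 0 < n := by omega
  have h2 : Finset.Iio (⟨1, hn⟩ : Fin n) = {⟨0, h0⟩} := by
    ext j
    simp only [Finset.mem_Iio, Fin.lt_def, Finset.mem_singleton, Fin.ext_iff]
    omega
  rw [h2, Finset.sum_singleton] at h1
  simp only at h1
  have h3 := frenetFrame_eq (γ := γ) ⟨1, hn⟩ t
  have h4 := frenetFrame_eq (γ := γ) ⟨0, h0⟩ t
  simp only at h3 h4
  have h5 : (0 : ℝ) < ‖gsv n γ ⟨1, hn⟩ t‖ := norm_pos_iff.2 (gsv_ne hγ _ t)
  have h6 : (0 : ℝ) < ‖gsv n γ ⟨0, h0⟩ t‖ := norm_pos_iff.2 (gsv_ne hγ _ t)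
  refine ⟨(inner ℝ (gsv n γ ⟨0, h0⟩ t) (der n γ 1 t) / (‖gsv n γ ⟨0, h0⟩ t‖ ^ 2)) *
    ‖gsv n γ ⟨0, h0⟩ t‖, ‖gsv n γ ⟨1, hn⟩ t‖, h5, ?_⟩
  rw [h3, h4, smul_smul, smul_smul, mul_inv_cancel₀ h5.ne', one_smul, mul_assoc,
    mul_inv_cancel₀ h6.ne', mul_one]
  rw [h1]
  abel

/-- First Frenet equation: `e₁' = b e₂` with `b > 0`. -/
theorem deriv_frame_zero (hγ : IsNondegenerateClosed n γ) (hn : 1 < n) (t : ℝ) :
    ∃ b : ℝ, 0 < b ∧ deriv (frenetFrame n γ 0) t = b • frenetFrame n γ 1 t := by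
  have h0 : 0 < n := by omega
  obtain ⟨c, b, hb, h1⟩ := der_one_eq hγ hn t
  have hne : der n γ 0 t ≠ 0 := by
    rw [← (der_zero_eq (γ := γ) h0 t).2]
    exact gsv_ne hγ _ t
  have hnep : ∀ t, der n γ 0 t ≠ 0 := by
    intro t
    rw [← (der_zero_eq (γ := γ) h0 t).2]
    exact gsv_ne hγ _ t
  set ρ : ℝ → ℝ := fun t => ‖der n γ 0 t‖ with hρ
  have hρpos : 0 < ρ t := norm_pos_iff.2 hne
  have hρd : DifferentiableAt ℝ ρ t :=
    (((der_contDiff hγ.1 0).norm ℝ hnep).differentiable (by simp)) t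
  -- differentiate `der 0 = ρ • e₀`
  have h2 : der n γ 0 = fun t => ρ t • frenetFrame n γ 0 t := by
    funext t; exact (der_zero_eq h0 t).1
  have h3 := der_hasDerivAt hγ.1 0 t
  have h4 : HasDerivAt (fun t => ρ t • frenetFrame n γ 0 t)
      (ρ t • deriv (frenetFrame n γ 0) t + deriv ρ t • frenetFrame n γ 0 t) t :=
    hρd.hasDerivAt.smul (frame_hasDerivAt hγ 0 t)
  rw [h2] at h3
  have h5 := h3.unique h4
  -- `e₀ ⊥ e₀'`
  have hn1 : ∀ t, ‖frenetFrame n γ 0 t‖ = 1 := by
    intro t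
    have := frenetFrame_inner hγ h0 h0 t
    rw [real_inner_self_eq_norm_sq, if_pos rfl] at this
    have h := norm_nonneg (frenetFrame n γ 0 t)
    nlinarith
  have h6 := inner_deriv_zero (fun t => frame_hasDerivAt hγ 0 t) hn1 t
  simp only [zero_add] at h5
  rw [h1] at h5
  have h7 : c = deriv ρ t := by
    have := congrArg (fun x => inner ℝ (frenetFrame n γ 0 t) x) h5
    simp only [inner_add_right, inner_smul_right] at this
    rw [h6, frenetFrame_inner hγ h0 hn, frenetFrame_inner hγ h0 h0] at this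
    simpa using this
  rw [h7] at h5
  have h8 : b • frenetFrame n γ 1 t = ρ t • deriv (frenetFrame n γ 0) t := by
    exact add_right_cancel h5
  refine ⟨(ρ t)⁻¹ * b, by positivity, ?_⟩
  rw [mul_smul, h8, smul_smul, inv_mul_cancel₀ hρpos.ne', one_smul]

/-- The second curvature does not vanish. -/
theorem deriv_frame_one (hγ : IsNondegenerateClosed n γ) (hn : 2 < n) (t : ℝ) :
    inner ℝ (deriv (frenetFrame n γ 1) t) (frenetFrame n γ 2 t) ≠ 0 := by
  intro hzero
  have h0 : 0 < n := by omega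
  have h1 : 1 < n := by omega
  have e1 := frame_hasDerivAt hγ 1 t
  have e2 := frame_hasDerivAt hγ 2 t
  -- `⟨e₂, f₀⟩ = 0`
  have a0 : inner ℝ (deriv (frenetFrame n γ 2) t) (der n γ 0 t) = 0 := by
    have h2 := e2.inner ℝ (der_hasDerivAt hγ.1 0 t)
    have h3 : (fun t => inner ℝ (frenetFrame n γ 2 t) (der n γ 0 t)) = fun _ => (0 : ℝ) := by
      funext t; exact frenetFrame_inner_der_lt hn (by norm_num) t
    rw [h3] at h2
    have h4 := h2.unique (hasDerivAt_const t (0 : ℝ))
    rw [frenetFrame_inner_der_lt hn (by norm_num) t, zero_add] at h4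
    exact h4
  have a1 : inner ℝ (deriv (frenetFrame n γ 2) t) (der n γ 1 t) =
      - inner ℝ (frenetFrame n γ 2 t) (der n γ 2 t) := by
    have h2 := e2.inner ℝ (der_hasDerivAt hγ.1 1 t)
    have h3 : (fun t => inner ℝ (frenetFrame n γ 2 t) (der n γ 1 t)) = fun _ => (0 : ℝ) := by
      funext t; exact frenetFrame_inner_der_lt hn (by norm_num) t
    rw [h3] at h2
    have h4 := h2.unique (hasDerivAt_const t (0 : ℝ))
    linarith
  have a2 : inner ℝ (frenetFrame n γ 1 t) (deriv (frenetFrame n γ 2) t) = 0 := by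
    have h2 := e1.inner ℝ e2
    have h3 : (fun t => inner ℝ (frenetFrame n γ 1 t) (frenetFrame n γ 2 t)) = fun _ => (0 : ℝ) := by
      funext t; rw [frenetFrame_inner hγ h1 hn]; simp
    rw [h3] at h2
    have h4 := h2.unique (hasDerivAt_const t (0 : ℝ))
    rw [hzero, add_zero] at h4
    exact h4
  obtain ⟨c, b, hb, h5⟩ := der_one_eq hγ h1 t
  have h6 := frenetFrame_inner_der_self hγ hn t
  have hne : der n γ 0 t ≠ 0 := by
    rw [← (der_zero_eq (γ := γ) h0 t).2]
    exact gsv_ne hγ _ t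
  have a3 : inner ℝ (deriv (frenetFrame n γ 2) t) (frenetFrame n γ 0 t) = 0 := by
    rw [(der_zero_eq (γ := γ) h0 t).1, inner_smul_right] at a0
    rcases mul_eq_zero.1 a0 with h | h
    · exact absurd h (norm_ne_zero_iff.2 hne)
    · exact h
  rw [h5, inner_add_right, inner_smul_right, inner_smul_right, a3,
    real_inner_comm, a2] at a1
  simp only [mul_zero, add_zero] at a1
  linarith

theorem deriv_eq_der (t : ℝ) : deriv γ t = der n γ 0 t := by
  unfold der
  rw [zero_add, iteratedDeriv_one]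

/-- The frame of a nondegenerate closed curve in `ℝⁿ`, `n ≥ 3`, is longer than `2π`. -/
theorem two_pi_lt_frenetFrameLength (hγ : IsNondegenerateClosed n γ) (hn : 2 < n) :
    2 * π < frenetFrameLength n γ := by
  have h0 : 0 < n := by omega
  have h1 : 1 < n := by omega
  have hne : ∀ t, der n γ 0 t ≠ 0 := by
    intro t
    rw [← (der_zero_eq (γ := γ) h0 t).2]
    exact gsv_ne hγ _ t
  have hn1 : ∀ t, ‖frenetFrame n γ 0 t‖ = 1 := by
    intro t
    have := frenetFrame_inner hγ h0 h0 t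
    rw [real_inner_self_eq_norm_sq, if_pos rfl] at this
    have h := norm_nonneg (frenetFrame n γ 0 t)
    nlinarith
  have hpi : (0 : ℝ) < 2 * π := by positivity
  -- periodicity of the derivatives
  have hper : ∀ k t, iteratedDeriv k γ (t + 2 * π) = iteratedDeriv k γ t := by
    intro k t
    have h2 : (fun z => γ (z + 2 * π)) = γ := by funext z; exact hγ.2.1 z
    have h3 := iteratedDeriv_comp_add_const k γ (2 * π)
    rw [h2] at h3
    exact (congrFun h3 t).symm
  have hper0 : frenetFrame n γ 0 (2 * π) = frenetFrame n γ 0 0 := by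
    unfold frenetFrame
    have h2 : ∀ k, iteratedDeriv k γ (2 * π) = iteratedDeriv k γ 0 := by
      intro k
      have := hper k 0
      rwa [zero_add] at this
    simp only [h2]
  -- the mean of the tangent vanishes
  have hmean : ∫ t in (0 : ℝ)..(2 * π), ‖der n γ 0 t‖ • frenetFrame n γ 0 t = 0 := by
    have h2 : ∀ t, ‖der n γ 0 t‖ • frenetFrame n γ 0 t = deriv γ t := by
      intro t
      rw [← (der_zero_eq h0 t).1, deriv_eq_der]
    simp only [h2]
    rw [integral_deriv_eq_sub]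
    · have := hγ.2.1 0
      rw [zero_add] at this
      rw [this, sub_self]
    · intro x _
      exact (hγ.1.differentiable (by simp)) x
    · exact (hγ.1.continuous_deriv (by simp)).intervalIntegrable _ _
  have hF := fenchel (T := frenetFrame n γ 0) (T' := deriv (frenetFrame n γ 0))
    (fun t => frame_hasDerivAt hγ 0 t) (deriv_frame_continuous hγ 0) hn1 hpi hper0
    (v := fun t => ‖der n γ 0 t‖) ((der_contDiff hγ.1 0).continuous.norm)
    (fun t => norm_pos_iff.2 (hne t)) hmean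
  refine lt_of_le_of_lt hF ?_
  -- comparison of the integrands
  have hcurv : ∀ i, Continuous (frenetCurvature n γ i) := by
    intro i
    unfold frenetCurvature
    apply Continuous.div
    · exact (deriv_frame_continuous hγ i).inner (frenetFrame_contDiff hγ (i + 1)).continuous
    · exact (hγ.1.continuous_deriv (by simp)).norm
    · intro t
      rw [deriv_eq_der]
      exact norm_ne_zero_iff.2 (hne t)
  have hcont : Continuous (fun t => Real.sqrt (∑ i ∈ Finset.range (n - 1),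
      frenetCurvature n γ i t ^ 2) * ‖deriv γ t‖) := by
    apply Continuous.mul
    · apply Continuous.sqrt
      exact continuous_finsetSum _ (fun i _ => (hcurv i).pow 2)
    · exact (hγ.1.continuous_deriv (by simp)).norm
  have hlt : ∀ t, ‖deriv (frenetFrame n γ 0) t‖ < Real.sqrt (∑ i ∈ Finset.range (n - 1),
      frenetCurvature n γ i t ^ 2) * ‖deriv γ t‖ := by
    intro t
    obtain ⟨b, hb, h2⟩ := deriv_frame_zero hγ h1 t
    have hρ : 0 < ‖deriv γ t‖ := by
      rw [deriv_eq_der]; exact norm_pos_iff.2 (hne t)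
    have h3 : ‖deriv (frenetFrame n γ 0) t‖ = b := by
      rw [h2, norm_smul, Real.norm_eq_abs, abs_of_pos hb]
      have := frenetFrame_inner hγ h1 h1 t
      rw [real_inner_self_eq_norm_sq, if_pos rfl] at this
      have h := norm_nonneg (frenetFrame n γ 1 t)
      have h' : ‖frenetFrame n γ 1 t‖ = 1 := by nlinarith
      rw [h', mul_one]
    have h4 : frenetCurvature n γ 0 t = b / ‖deriv γ t‖ := by
      unfold frenetCurvature
      rw [h2, inner_smul_left, zero_add, frenetFrame_inner hγ h1 h1]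
      simp
    have h5 : frenetCurvature n γ 1 t ≠ 0 := by
      unfold frenetCurvature
      exact div_ne_zero (deriv_frame_one hγ hn t) hρ.ne'
    have h6 : frenetCurvature n γ 0 t ^ 2 + frenetCurvature n γ 1 t ^ 2 ≤
        ∑ i ∈ Finset.range (n - 1), frenetCurvature n γ i t ^ 2 := by
      have h7 : ∑ i ∈ Finset.range 2, frenetCurvature n γ i t ^ 2 ≤
          ∑ i ∈ Finset.range (n - 1), frenetCurvature n γ i t ^ 2 := by
        apply Finset.sum_le_sum_of_subset_of_nonneg
        · intro i hi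
          rw [Finset.mem_range] at hi ⊢
          omega
        · intro i _ _
          positivity
      simpa [Finset.sum_range_succ] using h7
    have h7 : frenetCurvature n γ 0 t <
        Real.sqrt (∑ i ∈ Finset.range (n - 1), frenetCurvature n γ i t ^ 2) := by
      have h8 : 0 ≤ frenetCurvature n γ 0 t := by rw [h4]; positivity
      rw [Real.lt_sqrt h8]
      have : 0 < frenetCurvature n γ 1 t ^ 2 := by positivity
      linarith
    rw [h3]
    calc b = frenetCurvature n γ 0 t * ‖deriv γ t‖ := by rw [h4]; field_simp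
      _ < _ := mul_lt_mul_of_pos_right h7 hρ
  unfold frenetFrameLength
  apply integral_lt_integral_of_continuousOn_of_le_of_exists_lt hpi
  · exact (deriv_frame_continuous hγ 0).norm.continuousOn
  · exact hcont.continuousOn
  · intro t _
    exact (hlt t).le
  · exact ⟨0, ⟨le_rfl, hpi.le⟩, hlt 0⟩

end smooth

end Pool.Agent.NondegCurves
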